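import Mathlib

/-!
# Free abelian subgroups of cactus groups

For every `k` with `2 k + 1 ≤ n` the cactus group `J_n` contains a subgroup isomorphic to `ℤ^k`.
In particular `J_5` contains `ℤ^2`, although `⌊5/3⌋ = 1`.

The generators of the `ℤ^k` are `t_m = s_{1,m+2} s_{1,2} s_{2,m+2} s_{1,m+1} s_{1,m}` for
`m = 1, 3, 5, …, 2k-1`.  The element `t_m` commutes with `s_{a,b}` for `[a,b] ⊆ [1,m]`, and
independence is detected by an action of `J_n` on `(pairs of sets of integers) × ℤ`.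
-/

set_option autoImplicit false

namespace Pool.Agent.Results.MP_fc7805_al.CactusRank

/-- Labels of the generators `s_{p,q}` of `J_n`: pairs `1 ≤ p < q ≤ n`. -/
abbrev Gen (n : ℕ) : Type := {I : ℕ × ℕ // 1 ≤ I.1 ∧ I.1 < I.2 ∧ I.2 ≤ n}

/-- The integer interval `[p,q]` belonging to a label. -/
def Gen.ivl {n : ℕ} (a : Gen n) : Set ℕ := Set.Icc a.1.1 a.1.2

open FreeGroup in
/-- The defining relators of the cactus group `J_n`. -/
def rels (n : ℕ) : Set (FreeGroup (Gen n)) :=
  {w | ∃ a : Gen n, w = of a * of a} ∪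
  {w | ∃ a b : Gen n, a.ivl ∩ b.ivl = ∅ ∧ w = of a * of b * (of b * of a)⁻¹} ∪
  {w | ∃ a b c : Gen n, b.ivl ⊆ a.ivl ∧
      c.1 = (a.1.1 + a.1.2 - b.1.2, a.1.1 + a.1.2 - b.1.1) ∧
      w = of a * of b * (of c * of a)⁻¹}

/-- The cactus group `J_n`. -/
abbrev Cactus (n : ℕ) : Type := PresentedGroup (rels n)

/-! ### Reversals -/

/-- Reversal of `[p,q]`, fixing everything else. -/
def rev (p q x : ℕ) : ℕ := if p ≤ x ∧ x ≤ q then p + q - x else x

theorem rev_rev (p q x : ℕ) : rev p q (rev p q x) = x := by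
  unfold rev; split_ifs <;> omega

/-- `A` and `B` cross. -/
def Crossing (A B : Set ℕ) : Prop := (A ∩ B).Nonempty ∧ ¬ A ⊆ B ∧ ¬ B ⊆ A

open Classical in
/-- The action of a set `S` on the integer coordinate over the pair `(A, B)`. -/
noncomputable def fl (A B S : Set ℕ) (x : ℤ) : ℤ :=
  if Crossing A B then (if A = S then -x else if B = S then 1 - x else x) else x

/-- Two sets are nested or disjoint. -/
def Compat (S T : Set ℕ) : Prop := S ∩ T = ∅ ∨ S ⊆ T ∨ T ⊆ S

theorem fl_fl_self (A B S : Set ℕ) (x : ℤ) : fl A B S (fl A B S x) = x := by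
  unfold fl; split_ifs <;> ring

theorem fl_of_ne (A B S : Set ℕ) (hA : A ≠ S) (hB : B ≠ S) (x : ℤ) : fl A B S x = x := by
  unfold fl; split_ifs <;> rfl

theorem fl_comm (A B S T : Set ℕ) (h : Compat S T) (x : ℤ) :
    fl A B S (fl A B T x) = fl A B T (fl A B S x) := by
  by_cases hc : Crossing A B
  · by_cases hST : S = T
    · rw [hST]
    · have n1 : ¬ (A = S ∧ B = T) := by
        rintro ⟨rfl, rfl⟩
        rcases h with h | h | h
        · exact absurd hc.1 (by rw [h]; exact Set.not_nonempty_empty)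
        · exact hc.2.1 h
        · exact hc.2.2 h
      have n2 : ¬ (A = T ∧ B = S) := by
        rintro ⟨rfl, rfl⟩
        rcases h with h | h | h
        · exact absurd hc.1 (by rw [Set.inter_comm, h]; exact Set.not_nonempty_empty)
        · exact hc.2.2 h
        · exact hc.2.1 h
      by_cases hS : A = S ∨ B = S
      · have hA : A ≠ T := by
          rintro rfl
          rcases hS with h' | h'
          · exact hST h'.symm
          · exact n2 ⟨rfl, h'⟩
        have hB : B ≠ T := by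
          rintro rfl
          rcases hS with h' | h'
          · exact n1 ⟨h', rfl⟩
          · exact hST h'.symm
        rw [fl_of_ne A B T hA hB, fl_of_ne A B T hA hB]
      · push Not at hS
        rw [fl_of_ne A B S hS.1 hS.2, fl_of_ne A B S hS.1 hS.2]
  · unfold fl; simp only [hc, if_false]

/-- Equivariance of `fl` under an involution of `ℕ`, written with preimages. -/
theorem fl_preimage (w : ℕ → ℕ) (hw : ∀ x, w (w x) = x) (A B S : Set ℕ) (x : ℤ) :
    fl (w ⁻¹' A) (w ⁻¹' B) (w ⁻¹' S) x = fl A B S x := by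
  have hinj : Function.Surjective w := fun y => ⟨w y, hw y⟩
  have e : ∀ X Y : Set ℕ, w ⁻¹' X = w ⁻¹' Y ↔ X = Y := fun X Y => hinj.preimage_injective.eq_iff
  have e2 : ∀ X Y : Set ℕ, w ⁻¹' X ⊆ w ⁻¹' Y ↔ X ⊆ Y := fun X Y => hinj.preimage_subset_preimage_iff
  have hc : Crossing (w ⁻¹' A) (w ⁻¹' B) ↔ Crossing A B := by
    unfold Crossing
    rw [e2, e2, ← Set.preimage_inter, hinj.nonempty_preimage]
  unfold fl
  by_cases h : Crossing A B
  · rw [if_pos (hc.2 h), if_pos h]
    simp only [e]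
  · rw [if_neg (fun h' => h (hc.1 h')), if_neg h]

/-- The space on which the cactus groups act. -/
abbrev X : Type := (Set ℕ × Set ℕ) × ℤ

/-- The action of the interval `[p,q]`. -/
noncomputable def act (p q : ℕ) (y : X) : X :=
  ((rev p q ⁻¹' y.1.1, rev p q ⁻¹' y.1.2), fl y.1.1 y.1.2 (Set.Icc p q) y.2)

theorem rev_preimage_rev_preimage (p q : ℕ) (A : Set ℕ) : rev p q ⁻¹' (rev p q ⁻¹' A) = A := by
  ext x; simp [rev_rev]

theorem rev_preimage_Icc (p q m r : ℕ) (hpm : p ≤ m) (hmr : m ≤ r) (hrq : r ≤ q) :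
    rev p q ⁻¹' (Set.Icc m r) = Set.Icc (p + q - r) (p + q - m) := by
  ext x
  simp only [Set.mem_preimage, Set.mem_Icc, rev]
  split_ifs <;> omega

theorem rev_preimage_Icc_self (p q : ℕ) : rev p q ⁻¹' (Set.Icc p q) = Set.Icc p q := by
  ext x
  simp only [Set.mem_preimage, Set.mem_Icc, rev]
  split_ifs <;> omega

theorem rev_preimage_Icc_disj (p q m r : ℕ) (h : q < m ∨ r < p) :
    rev p q ⁻¹' (Set.Icc m r) = Set.Icc m r := by
  ext x
  simp only [Set.mem_preimage, Set.mem_Icc, rev]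
  split_ifs <;> omega

theorem act_act (p q : ℕ) (y : X) : act p q (act p q y) = y := by
  obtain ⟨⟨A, B⟩, x⟩ := y
  unfold act
  simp only [rev_preimage_rev_preimage]
  congr 1
  conv_lhs => rw [← rev_preimage_Icc_self p q]
  rw [fl_preimage _ (rev_rev p q), rev_preimage_Icc_self, fl_fl_self]

theorem act_comm_disj (p q m r : ℕ) (h : q < m ∨ r < p) (y : X) :
    act p q (act m r y) = act m r (act p q y) := by
  obtain ⟨⟨A, B⟩, x⟩ := y
  unfold act
  have hw : ∀ A : Set ℕ, rev p q ⁻¹' (rev m r ⁻¹' A) = rev m r ⁻¹' (rev p q ⁻¹' A) := by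
    intro A
    ext x
    simp only [Set.mem_preimage]
    have : rev m r (rev p q x) = rev p q (rev m r x) := by
      unfold rev; split_ifs <;> omega
    rw [this]
  simp only [hw]
  congr 1
  have h1 : fl (rev m r ⁻¹' A) (rev m r ⁻¹' B) (Set.Icc p q) = fl A B (Set.Icc p q) := by
    funext z
    conv_lhs => rw [← rev_preimage_Icc_disj m r p q h.symm]
    rw [fl_preimage _ (rev_rev m r)]
  have h2 : fl (rev p q ⁻¹' A) (rev p q ⁻¹' B) (Set.Icc m r) = fl A B (Set.Icc m r) := by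
    funext z
    conv_lhs => rw [← rev_preimage_Icc_disj p q m r h]
    rw [fl_preimage _ (rev_rev p q)]
  rw [h1, h2]
  apply fl_comm
  left
  ext z
  simp only [Set.mem_inter_iff, Set.mem_Icc, Set.mem_empty_iff_false, iff_false]
  omega

theorem act_nested (p q m r : ℕ) (hpm : p ≤ m) (hmr : m ≤ r) (hrq : r ≤ q) (y : X) :
    act p q (act m r y) = act (p + q - r) (p + q - m) (act p q y) := by
  obtain ⟨⟨A, B⟩, x⟩ := y
  unfold act
  have hw : ∀ A : Set ℕ, rev p q ⁻¹' (rev m r ⁻¹' A)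
      = rev (p + q - r) (p + q - m) ⁻¹' (rev p q ⁻¹' A) := by
    intro A
    ext x
    simp only [Set.mem_preimage]
    have : rev m r (rev p q x) = rev p q (rev (p + q - r) (p + q - m) x) := by
      unfold rev; split_ifs <;> omega
    rw [this]
  simp only [hw]
  congr 1
  have h1 : fl (rev m r ⁻¹' A) (rev m r ⁻¹' B) (Set.Icc p q) = fl A B (Set.Icc p q) := by
    funext z
    have e : rev m r ⁻¹' (Set.Icc p q) = Set.Icc p q := by
      ext x
      simp only [Set.mem_preimage, Set.mem_Icc, rev]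
      split_ifs <;> omega
    conv_lhs => rw [← e]
    rw [fl_preimage _ (rev_rev m r)]
  have h2 : fl (rev p q ⁻¹' A) (rev p q ⁻¹' B) (Set.Icc (p + q - r) (p + q - m))
      = fl A B (Set.Icc m r) := by
    funext z
    rw [← rev_preimage_Icc p q m r hpm hmr hrq]
    rw [fl_preimage _ (rev_rev p q)]
  rw [h1, h2]
  apply fl_comm
  right; right
  exact Set.Icc_subset_Icc hpm hrq

/-! ### The action of the cactus group -/

/-- The permutation of `X` given by the interval `[p,q]`. -/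
noncomputable def actPerm (p q : ℕ) : Equiv.Perm X :=
  ⟨act p q, act p q, act_act p q, act_act p q⟩

theorem actPerm_apply (p q : ℕ) (y : X) : actPerm p q y = act p q y := rfl

theorem Icc_inter_empty {p q m r : ℕ} (hpq : p < q) (hmr : m < r)
    (h : Set.Icc p q ∩ Set.Icc m r = ∅) : q < m ∨ r < p := by
  by_contra hcon
  push Not at hcon
  have : max p m ∈ Set.Icc p q ∩ Set.Icc m r := by
    simp only [Set.mem_inter_iff, Set.mem_Icc]
    omega
  rw [h] at this
  exact this

theorem Icc_subset {p q m r : ℕ} (hmr : m < r)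
    (h : Set.Icc m r ⊆ Set.Icc p q) : p ≤ m ∧ r ≤ q := by
  have h1 : m ∈ Set.Icc m r := by simp only [Set.mem_Icc]; omega
  have h2 : r ∈ Set.Icc m r := by simp only [Set.mem_Icc]; omega
  exact ⟨(h h1).1, (h h2).2⟩

theorem rels_act (n : ℕ) : ∀ w ∈ rels n,
    FreeGroup.lift (fun a : Gen n => actPerm a.1.1 a.1.2) w = 1 := by
  rintro w ((⟨a, rfl⟩ | ⟨a, b, hab, rfl⟩) | ⟨a, b, c, hab, hc, rfl⟩)
  · rw [map_mul, FreeGroup.lift_apply_of]
    ext1 y
    exact act_act _ _ _
  · rw [map_mul, map_inv, map_mul, map_mul, FreeGroup.lift_apply_of, FreeGroup.lift_apply_of, mul_inv_eq_one]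
    ext1 y
    exact act_comm_disj _ _ _ _ (Icc_inter_empty a.2.2.1 b.2.2.1 hab) y
  · rw [map_mul, map_inv, map_mul, map_mul, FreeGroup.lift_apply_of, FreeGroup.lift_apply_of,
      FreeGroup.lift_apply_of, mul_inv_eq_one]
    ext1 y
    have h := Icc_subset b.2.2.1 hab
    have h' := act_nested a.1.1 a.1.2 b.1.1 b.1.2 h.1 b.2.2.1.le h.2 y
    rw [hc]
    exact h'

/-- The action homomorphism. -/
noncomputable def Φ (n : ℕ) : Cactus n →* Equiv.Perm X := PresentedGroup.toGroup (rels_act n)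

/-- The element `s_{p,q}` of `J_n` (trivial if `(p,q)` is not a valid label). -/
def S (n p q : ℕ) : Cactus n :=
  if h : 1 ≤ p ∧ p < q ∧ q ≤ n then PresentedGroup.of ⟨(p, q), h⟩ else 1

theorem Φ_S (n p q : ℕ) (h1 : 1 ≤ p) (h2 : p ≤ q) (h3 : q ≤ n) (y : X) :
    Φ n (S n p q) y = act p q y := by
  unfold S
  by_cases h : 1 ≤ p ∧ p < q ∧ q ≤ n
  · rw [dif_pos h]
    unfold Φ
    rw [PresentedGroup.toGroup.of]
    rfl
  · rw [dif_neg h]
    have : p = q := by omega
    subst this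
    obtain ⟨⟨A, B⟩, x⟩ := y
    rw [map_one, Equiv.Perm.one_apply]
    unfold act
    have hr : ∀ A : Set ℕ, rev p p ⁻¹' A = A := by
      intro A
      ext z
      simp only [Set.mem_preimage]
      have : rev p p z = z := by unfold rev; split_ifs <;> omega
      rw [this]
    simp only [hr]
    congr 1
    unfold fl
    by_cases hc : Crossing A B
    · rw [if_pos hc]
      obtain ⟨⟨z, hzA, hzB⟩, hAB, hBA⟩ := hc
      have nA : A ≠ Set.Icc p p := by
        rintro rfl
        apply hAB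
        intro y hy
        simp only [Set.Icc_self, Set.mem_singleton_iff] at hy hzA
        rw [hy, ← hzA]; exact hzB
      have nB : B ≠ Set.Icc p p := by
        rintro rfl
        apply hBA
        intro y hy
        simp only [Set.Icc_self, Set.mem_singleton_iff] at hy hzB
        rw [hy, ← hzB]; exact hzA
      rw [if_neg nA, if_neg nB]
    · rw [if_neg hc]

theorem S_nested (n p q m r : ℕ) (h1 : 1 ≤ p) (h2 : p ≤ m) (h3 : m ≤ r) (h4 : r ≤ q)
    (h5 : q ≤ n) : S n p q * S n m r = S n (p + q - r) (p + q - m) * S n p q := by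
  by_cases hmr : m = r
  · subst hmr
    have e1 : S n m m = 1 := by unfold S; rw [dif_neg (by omega)]
    have e2 : S n (p + q - m) (p + q - m) = 1 := by unfold S; rw [dif_neg (by omega)]
    rw [e1, e2, one_mul, mul_one]
  · have ha : 1 ≤ p ∧ p < q ∧ q ≤ n := by omega
    have hb : 1 ≤ m ∧ m < r ∧ r ≤ n := by omega
    have hc : 1 ≤ p + q - r ∧ p + q - r < p + q - m ∧ p + q - m ≤ n := by omega
    unfold S
    rw [dif_pos ha, dif_pos hb, dif_pos hc]
    have := PresentedGroup.one_of_mem (rels := rels n)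
      (x := FreeGroup.of ⟨(p, q), ha⟩ * FreeGroup.of ⟨(m, r), hb⟩ *
        (FreeGroup.of ⟨(p + q - r, p + q - m), hc⟩ * FreeGroup.of ⟨(p, q), ha⟩)⁻¹)
      (Or.inr ⟨⟨(p, q), ha⟩, ⟨(m, r), hb⟩, ⟨(p + q - r, p + q - m), hc⟩,
        Set.Icc_subset_Icc h2 h4, rfl, rfl⟩)
    rw [map_mul, map_inv, mul_inv_eq_one, map_mul, map_mul] at this
    exact this

theorem S_disj (n p q m r : ℕ) (h : q < m) : S n p q * S n m r = S n m r * S n p q := by
  unfold S
  by_cases ha : 1 ≤ p ∧ p < q ∧ q ≤ n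
  · by_cases hb : 1 ≤ m ∧ m < r ∧ r ≤ n
    · rw [dif_pos ha, dif_pos hb]
      have := PresentedGroup.one_of_mem (rels := rels n)
        (x := FreeGroup.of ⟨(p, q), ha⟩ * FreeGroup.of ⟨(m, r), hb⟩ *
          (FreeGroup.of ⟨(m, r), hb⟩ * FreeGroup.of ⟨(p, q), ha⟩)⁻¹)
        (Or.inl (Or.inr ⟨⟨(p, q), ha⟩, ⟨(m, r), hb⟩, by
          ext z
          simp only [Gen.ivl, Set.mem_inter_iff, Set.mem_Icc, Set.mem_empty_iff_false, iff_false]
          omega, rfl⟩))
      rw [map_mul, map_inv, mul_inv_eq_one, map_mul, map_mul] at this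
      exact this
    · rw [dif_neg hb, one_mul, mul_one]
  · rw [dif_neg ha, one_mul, mul_one]

/-- The element `t_m = s_{1,m+2} s_{1,2} s_{2,m+2} s_{1,m+1} s_{1,m}`. -/
def t (n m : ℕ) : Cactus n :=
  S n 1 (m + 2) * S n 1 2 * S n 2 (m + 2) * S n 1 (m + 1) * S n 1 m

theorem t_comm_S (n m a b : ℕ) (hm : m + 2 ≤ n) (ha : 1 ≤ a) (hab : a ≤ b) (hb : b ≤ m) :
    Commute (t n m) (S n a b) := by
  unfold Commute SemiconjBy t
  have e5 : S n 1 m * S n a b = S n (m + 1 - b) (m + 1 - a) * S n 1 m := by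
    have := S_nested n 1 m a b le_rfl ha hab hb (by omega)
    rwa [show 1 + m - b = m + 1 - b by omega, show 1 + m - a = m + 1 - a by omega] at this
  have e4 : S n 1 (m + 1) * S n (m + 1 - b) (m + 1 - a) = S n (a + 1) (b + 1) * S n 1 (m + 1) := by
    have := S_nested n 1 (m + 1) (m + 1 - b) (m + 1 - a) le_rfl (by omega) (by omega) (by omega)
      (by omega)
    rwa [show 1 + (m + 1) - (m + 1 - a) = a + 1 by omega,
      show 1 + (m + 1) - (m + 1 - b) = b + 1 by omega] at this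
  have e3 : S n 2 (m + 2) * S n (a + 1) (b + 1) = S n (m + 3 - b) (m + 3 - a) * S n 2 (m + 2) := by
    have := S_nested n 2 (m + 2) (a + 1) (b + 1) (by omega) (by omega) (by omega) (by omega)
      (by omega)
    rwa [show 2 + (m + 2) - (b + 1) = m + 3 - b by omega,
      show 2 + (m + 2) - (a + 1) = m + 3 - a by omega] at this
  have e2 : S n 1 2 * S n (m + 3 - b) (m + 3 - a) = S n (m + 3 - b) (m + 3 - a) * S n 1 2 :=
    S_disj n 1 2 _ _ (by omega)
  have e1 : S n 1 (m + 2) * S n (m + 3 - b) (m + 3 - a) = S n a b * S n 1 (m + 2) := by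
    have := S_nested n 1 (m + 2) (m + 3 - b) (m + 3 - a) le_rfl (by omega) (by omega) (by omega)
      (by omega)
    rwa [show 1 + (m + 2) - (m + 3 - a) = a by omega,
      show 1 + (m + 2) - (m + 3 - b) = b by omega] at this
  calc S n 1 (m + 2) * S n 1 2 * S n 2 (m + 2) * S n 1 (m + 1) * S n 1 m * S n a b
      = S n 1 (m + 2) * S n 1 2 * S n 2 (m + 2) * S n 1 (m + 1) * (S n 1 m * S n a b) := by
        simp only [mul_assoc]
    _ = S n 1 (m + 2) * S n 1 2 * S n 2 (m + 2) * (S n 1 (m + 1) * S n (m + 1 - b) (m + 1 - a))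
          * S n 1 m := by rw [e5]; simp only [mul_assoc]
    _ = S n 1 (m + 2) * S n 1 2 * (S n 2 (m + 2) * S n (a + 1) (b + 1)) * S n 1 (m + 1)
          * S n 1 m := by rw [e4]; simp only [mul_assoc]
    _ = S n 1 (m + 2) * (S n 1 2 * S n (m + 3 - b) (m + 3 - a)) * S n 2 (m + 2) * S n 1 (m + 1)
          * S n 1 m := by rw [e3]; simp only [mul_assoc]
    _ = (S n 1 (m + 2) * S n (m + 3 - b) (m + 3 - a)) * S n 1 2 * S n 2 (m + 2) * S n 1 (m + 1)
          * S n 1 m := by rw [e2]; simp only [mul_assoc]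
    _ = S n a b * (S n 1 (m + 2) * S n 1 2 * S n 2 (m + 2) * S n 1 (m + 1) * S n 1 m) := by
        rw [e1]; simp only [mul_assoc]

theorem t_comm_t (n m m' : ℕ) (hm : m + 2 ≤ n) (hm1 : 1 ≤ m') (h : m' + 2 ≤ m) :
    Commute (t n m) (t n m') := by
  conv => arg 2; unfold t
  refine Commute.mul_right (Commute.mul_right (Commute.mul_right (Commute.mul_right ?_ ?_) ?_) ?_) ?_
  · exact t_comm_S n m _ _ hm le_rfl (by omega) (by omega)
  · exact t_comm_S n m _ _ hm le_rfl (by omega) (by omega)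
  · exact t_comm_S n m _ _ hm (by omega) (by omega) (by omega)
  · exact t_comm_S n m _ _ hm le_rfl (by omega) (by omega)
  · exact t_comm_S n m _ _ hm le_rfl (by omega) (by omega)

/-- The first set of the `j`-th test pair. -/
def A (j : ℕ) : Set ℕ := Set.Icc 1 (j + 1)

/-- The second set of the `j`-th test pair. -/
def B (j : ℕ) : Set ℕ := {x | (1 ≤ x ∧ x ≤ j) ∨ x = j + 2}

theorem crossing_AB (j : ℕ) (hj : 1 ≤ j) : Crossing (A j) (B j) := by
  refine ⟨⟨1, ?_, ?_⟩, ?_, ?_⟩
  · simp only [A, Set.mem_Icc]; omega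
  · show (1 ≤ 1 ∧ 1 ≤ j) ∨ 1 = j + 2
    omega
  · intro h
    have : j + 1 ∈ A j := by simp only [A, Set.mem_Icc]; omega
    have h' : (1 ≤ j + 1 ∧ j + 1 ≤ j) ∨ j + 1 = j + 2 := h this
    omega
  · intro h
    have : j + 2 ∈ B j := Or.inr rfl
    have h' := h this
    simp only [A, Set.mem_Icc] at h'
    omega

theorem act_t (n m : ℕ) (hm : m + 2 ≤ n) (hm1 : 1 ≤ m) (P Q : Set ℕ) (x : ℤ) :
    Φ n (t n m) ((P, Q), x) = ((P, Q), fl P Q (Set.Icc 1 (m + 2)) (fl P Q (Set.Icc (m + 1) (m + 2))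
      (fl P Q (B m) (fl P Q (A m) (fl P Q (Set.Icc 1 m) x))))) := by
  unfold t
  simp only [map_mul, Equiv.Perm.mul_apply]
  rw [Φ_S n 1 m le_rfl hm1 (by omega), Φ_S n 1 (m + 1) le_rfl (by omega) (by omega),
    Φ_S n 2 (m + 2) (by omega) (by omega) (by omega), Φ_S n 1 2 le_rfl (by omega) (by omega),
    Φ_S n 1 (m + 2) le_rfl (by omega) (by omega)]
  simp only [act]
  have hid : ∀ R : Set ℕ, rev 1 (m + 2) ⁻¹' (rev 1 2 ⁻¹' (rev 2 (m + 2) ⁻¹'
      (rev 1 (m + 1) ⁻¹' (rev 1 m ⁻¹' R)))) = R := by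
    intro R
    ext z
    simp only [Set.mem_preimage]
    have : rev 1 m (rev 1 (m + 1) (rev 2 (m + 2) (rev 1 2 (rev 1 (m + 2) z)))) = z := by
      have h1 : rev 1 (m + 2) z = if 1 ≤ z ∧ z ≤ m + 2 then m + 3 - z else z := by
        unfold rev; split_ifs <;> omega
      rw [h1]
      by_cases hz : 1 ≤ z ∧ z ≤ m + 2
      · rw [if_pos hz]
        by_cases hz1 : z ≤ m
        · have a1 : rev 1 2 (m + 3 - z) = m + 3 - z := by unfold rev; split_ifs <;> omega
          have a2 : rev 2 (m + 2) (m + 3 - z) = z + 1 := by unfold rev; split_ifs <;> omega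
          have a3 : rev 1 (m + 1) (z + 1) = m + 1 - z := by unfold rev; split_ifs <;> omega
          have a4 : rev 1 m (m + 1 - z) = z := by unfold rev; split_ifs <;> omega
          rw [a1, a2, a3, a4]
        · by_cases hz2 : z = m + 1
          · subst hz2
            have a1 : rev 1 2 (m + 3 - (m + 1)) = 1 := by unfold rev; split_ifs <;> omega
            have a2 : rev 2 (m + 2) 1 = 1 := by unfold rev; split_ifs <;> omega
            have a3 : rev 1 (m + 1) 1 = m + 1 := by unfold rev; split_ifs <;> omega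
            have a4 : rev 1 m (m + 1) = m + 1 := by unfold rev; split_ifs <;> omega
            rw [a1, a2, a3, a4]
          · have hz3 : z = m + 2 := by omega
            subst hz3
            have a1 : rev 1 2 (m + 3 - (m + 2)) = 2 := by unfold rev; split_ifs <;> omega
            have a2 : rev 2 (m + 2) 2 = m + 2 := by unfold rev; split_ifs <;> omega
            have a3 : rev 1 (m + 1) (m + 2) = m + 2 := by unfold rev; split_ifs <;> omega
            have a4 : rev 1 m (m + 2) = m + 2 := by unfold rev; split_ifs <;> omega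
            rw [a1, a2, a3, a4]
      · rw [if_neg hz]
        have a1 : rev 1 2 z = z := by unfold rev; split_ifs <;> omega
        have a2 : rev 2 (m + 2) z = z := by unfold rev; split_ifs <;> omega
        have a3 : rev 1 (m + 1) z = z := by unfold rev; split_ifs <;> omega
        have a4 : rev 1 m z = z := by unfold rev; split_ifs <;> omega
        rw [a1, a2, a3, a4]
    rw [this]
  simp only [hid]
  congr 1
  -- the successive coordinates
  have s4 : Set.Icc 1 (m + 1) = rev 1 m ⁻¹' (A m) := by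
    ext z; simp only [A, Set.mem_preimage, Set.mem_Icc, rev]; split_ifs <;> omega
  have s3 : Set.Icc 2 (m + 2) = rev 1 (m + 1) ⁻¹' (rev 1 m ⁻¹' (B m)) := by
    ext z
    show _ ↔ (1 ≤ rev 1 m (rev 1 (m + 1) z) ∧ rev 1 m (rev 1 (m + 1) z) ≤ m) ∨
      rev 1 m (rev 1 (m + 1) z) = m + 2
    simp only [Set.mem_Icc, rev]
    split_ifs <;> omega
  have s2 : Set.Icc 1 2 = rev 2 (m + 2) ⁻¹' (rev 1 (m + 1) ⁻¹' (rev 1 m ⁻¹'
      (Set.Icc (m + 1) (m + 2)))) := by
    ext z
    simp only [Set.mem_preimage, Set.mem_Icc, rev]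
    split_ifs <;> omega
  have s1 : Set.Icc 1 (m + 2) = rev 1 2 ⁻¹' (rev 2 (m + 2) ⁻¹' (rev 1 (m + 1) ⁻¹' (rev 1 m ⁻¹'
      (Set.Icc 1 (m + 2))))) := by
    ext z
    simp only [Set.mem_preimage, Set.mem_Icc, rev]
    split_ifs <;> omega
  have f4 : ∀ y, fl (rev 1 m ⁻¹' P) (rev 1 m ⁻¹' Q) (Set.Icc 1 (m + 1)) y = fl P Q (A m) y := by
    intro y; rw [s4, fl_preimage _ (rev_rev _ _)]
  have f3 : ∀ y, fl (rev 1 (m + 1) ⁻¹' (rev 1 m ⁻¹' P)) (rev 1 (m + 1) ⁻¹' (rev 1 m ⁻¹' Q))
      (Set.Icc 2 (m + 2)) y = fl P Q (B m) y := by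
    intro y; rw [s3, fl_preimage _ (rev_rev _ _), fl_preimage _ (rev_rev _ _)]
  have f2 : ∀ y, fl (rev 2 (m + 2) ⁻¹' (rev 1 (m + 1) ⁻¹' (rev 1 m ⁻¹' P)))
      (rev 2 (m + 2) ⁻¹' (rev 1 (m + 1) ⁻¹' (rev 1 m ⁻¹' Q)))
      (Set.Icc 1 2) y = fl P Q (Set.Icc (m + 1) (m + 2)) y := by
    intro y
    rw [s2, fl_preimage _ (rev_rev _ _), fl_preimage _ (rev_rev _ _), fl_preimage _ (rev_rev _ _)]
  have f1 : ∀ y, fl (rev 1 2 ⁻¹' (rev 2 (m + 2) ⁻¹' (rev 1 (m + 1) ⁻¹' (rev 1 m ⁻¹' P))))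
      (rev 1 2 ⁻¹' (rev 2 (m + 2) ⁻¹' (rev 1 (m + 1) ⁻¹' (rev 1 m ⁻¹' Q))))
      (Set.Icc 1 (m + 2)) y = fl P Q (Set.Icc 1 (m + 2)) y := by
    intro y
    conv_lhs => rw [s1]
    rw [fl_preimage _ (rev_rev _ _), fl_preimage _ (rev_rev _ _), fl_preimage _ (rev_rev _ _),
      fl_preimage _ (rev_rev _ _)]
  rw [f4, f3, f2, f1]

/-- A set equality tested at the six relevant points. -/
theorem test_points {P Q : Set ℕ} (h : P = Q) (z : ℕ) : z ∈ P ↔ z ∈ Q := by rw [h]

theorem act_t_same (n m : ℕ) (hm : m + 2 ≤ n) (hm1 : 1 ≤ m) (x : ℤ) :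
    Φ n (t n m) ((A m, B m), x) = ((A m, B m), x + 1) := by
  rw [act_t n m hm hm1]
  congr 1
  have hBmem : ∀ z, z ∈ B m ↔ ((1 ≤ z ∧ z ≤ m) ∨ z = m + 2) := fun z => Iff.rfl
  have hAmem : ∀ z, z ∈ A m ↔ (1 ≤ z ∧ z ≤ m + 1) := fun z => Iff.rfl
  have hAB : A m ≠ B m := by
    intro h; have h1 := test_points h (m + 1); rw [hAmem, hBmem] at h1; omega
  have a5 : A m ≠ Set.Icc 1 m := by
    intro h; have h1 := test_points h (m + 1); rw [hAmem, Set.mem_Icc] at h1; omega
  have b5 : B m ≠ Set.Icc 1 m := by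
    intro h; have h1 := test_points h (m + 2); rw [hBmem, Set.mem_Icc] at h1; omega
  have a2 : A m ≠ Set.Icc (m + 1) (m + 2) := by
    intro h; have h1 := test_points h (m + 2); rw [hAmem, Set.mem_Icc] at h1; omega
  have b2 : B m ≠ Set.Icc (m + 1) (m + 2) := by
    intro h; have h1 := test_points h (m + 1); rw [hBmem, Set.mem_Icc] at h1; omega
  have a1 : A m ≠ Set.Icc 1 (m + 2) := by
    intro h; have h1 := test_points h (m + 2); rw [hAmem, Set.mem_Icc] at h1; omega
  have b1 : B m ≠ Set.Icc 1 (m + 2) := by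
    intro h; have h1 := test_points h (m + 1); rw [hBmem, Set.mem_Icc] at h1; omega
  rw [fl_of_ne _ _ _ a5 b5, fl_of_ne _ _ _ a1 b1, fl_of_ne _ _ _ a2 b2]
  unfold fl
  rw [if_pos (crossing_AB m hm1), if_pos (crossing_AB m hm1), if_pos rfl, if_neg hAB, if_pos rfl]
  ring

theorem act_t_ne (n m j : ℕ) (hm : m + 2 ≤ n) (hmo : Odd m) (hjo : Odd j) (hjm : j ≠ m) (x : ℤ) :
    Φ n (t n m) ((A j, B j), x) = ((A j, B j), x) := by
  obtain ⟨m', rfl⟩ := hmo
  obtain ⟨j', rfl⟩ := hjo
  rw [act_t n _ hm (by omega)]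
  congr 1
  set m := 2 * m' + 1 with hm'
  set j := 2 * j' + 1 with hj'
  have hBmem : ∀ i z, z ∈ B i ↔ ((1 ≤ z ∧ z ≤ i) ∨ z = i + 2) := fun i z => Iff.rfl
  have hAmem : ∀ i z, z ∈ A i ↔ (1 ≤ z ∧ z ≤ i + 1) := fun i z => Iff.rfl
  have a5 : A j ≠ Set.Icc 1 m := by
    intro h
    have h1 := test_points h (j + 1)
    have h2 := test_points h (j + 2)
    rw [hAmem, Set.mem_Icc] at h1 h2; omega
  have a4 : A j ≠ A m := by
    intro h
    have h1 := test_points h (j + 1)
    have h2 := test_points h (m + 1)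
    rw [hAmem, hAmem] at h1 h2; omega
  have a3 : A j ≠ B m := by
    intro h
    have h1 := test_points h (m + 2)
    have h2 := test_points h (m + 1)
    rw [hAmem, hBmem] at h1 h2; omega
  have a2 : A j ≠ Set.Icc (m + 1) (m + 2) := by
    intro h
    have h1 := test_points h 1
    rw [hAmem, Set.mem_Icc] at h1; omega
  have a1 : A j ≠ Set.Icc 1 (m + 2) := by
    intro h
    have h1 := test_points h (j + 1)
    have h2 := test_points h (m + 2)
    rw [hAmem, Set.mem_Icc] at h1 h2; omega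
  have b5 : B j ≠ Set.Icc 1 m := by
    intro h
    have h1 := test_points h (j + 2)
    have h2 := test_points h (j + 1)
    rw [hBmem, Set.mem_Icc] at h1 h2; omega
  have b4 : B j ≠ A m := by
    intro h
    have h1 := test_points h (j + 2)
    have h2 := test_points h (j + 1)
    rw [hBmem, hAmem] at h1 h2; omega
  have b3 : B j ≠ B m := by
    intro h
    have h1 := test_points h (j + 2)
    have h2 := test_points h (j + 1)
    rw [hBmem, hBmem] at h1 h2; omega
  have b2 : B j ≠ Set.Icc (m + 1) (m + 2) := by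
    intro h
    have h1 := test_points h 1
    rw [hBmem, Set.mem_Icc] at h1; omega
  have b1 : B j ≠ Set.Icc 1 (m + 2) := by
    intro h
    have h1 := test_points h (j + 2)
    have h2 := test_points h (j + 1)
    rw [hBmem, Set.mem_Icc] at h1 h2; omega
  rw [fl_of_ne _ _ _ a5 b5, fl_of_ne _ _ _ a4 b4, fl_of_ne _ _ _ a3 b3, fl_of_ne _ _ _ a2 b2,
    fl_of_ne _ _ _ a1 b1]

theorem act_t_zpow_same (n m : ℕ) (hm : m + 2 ≤ n) (hm1 : 1 ≤ m) (a : ℤ) (x : ℤ) :
    Φ n (t n m ^ a) ((A m, B m), x) = ((A m, B m), x + a) := by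
  have hpos : ∀ (c : ℕ) (x : ℤ), Φ n (t n m ^ c) ((A m, B m), x) = ((A m, B m), x + c) := by
    intro c
    induction c with
    | zero => intro x; simp
    | succ c ih =>
      intro x
      rw [pow_succ, map_mul, Equiv.Perm.mul_apply, act_t_same n m hm hm1, ih]
      push_cast
      congr 1
      ring
  obtain ⟨c, rfl | rfl⟩ := a.eq_nat_or_neg
  · rw [zpow_natCast]; exact hpos c x
  · rw [zpow_neg, zpow_natCast, map_inv, Equiv.Perm.inv_eq_iff_eq, hpos]
    congr 1
    ring

theorem act_t_zpow_ne (n m j : ℕ) (hm : m + 2 ≤ n) (hmo : Odd m) (hjo : Odd j) (hjm : j ≠ m)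
    (a : ℤ) (x : ℤ) :
    Φ n (t n m ^ a) ((A j, B j), x) = ((A j, B j), x) := by
  rw [map_zpow]
  exact Equiv.Perm.zpow_apply_eq_self_of_apply_eq_self (act_t_ne n m j hm hmo hjo hjm x) a

/-- `J_n` contains a free abelian group of every rank `k` with `2 k + 1 ≤ n`. -/
theorem exists_injective_hom (n k : ℕ) (h : 2 * k + 1 ≤ n) :
    ∃ f : Multiplicative (Fin k → ℤ) →* Cactus n, Function.Injective f := by
  let ϕ : ∀ _ : Fin k, Multiplicative ℤ →* Cactus n := fun i => zpowersHom _ (t n (2 * i + 1))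
  have hcomm : Pairwise fun i j : Fin k => ∀ x y, Commute (ϕ i x) (ϕ j y) := by
    have key : ∀ i j : Fin k, i < j → ∀ x y, Commute (ϕ i x) (ϕ j y) := by
      intro i j hij x y
      have hij' : (i : ℕ) < j := hij
      have hj := j.2
      simp only [ϕ, zpowersHom_apply]
      exact (t_comm_t n (2 * j + 1) (2 * i + 1) (by omega) (by omega) (by omega)).symm.zpow_zpow _ _
    intro i j hij x y
    rcases lt_or_gt_of_ne hij with h' | h'
    · exact key i j h' x y
    · exact (key j i h' y x).symm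
  let F : (Fin k → Multiplicative ℤ) →* Cactus n := MonoidHom.noncommPiCoprod ϕ hcomm
  have hF : ∀ (v : Fin k → Multiplicative ℤ) (j : Fin k) (x : ℤ),
      Φ n (F v) ((A (2 * j + 1), B (2 * j + 1)), x)
        = ((A (2 * j + 1), B (2 * j + 1)), x + Multiplicative.toAdd (v j)) := by
    intro v j
    have hv : v = ∏ i, Pi.mulSingle i (v i) := (Finset.univ_prod_mulSingle v).symm
    have key : ∀ w : Fin k → Multiplicative ℤ, (∀ x : ℤ,
        Φ n (F w) ((A (2 * j + 1), B (2 * j + 1)), x)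
        = ((A (2 * j + 1), B (2 * j + 1)), x + Multiplicative.toAdd (w j))) ↔
        w ∈ {w : Fin k → Multiplicative ℤ | ∀ x : ℤ,
        Φ n (F w) ((A (2 * j + 1), B (2 * j + 1)), x)
        = ((A (2 * j + 1), B (2 * j + 1)), x + Multiplicative.toAdd (w j))} := fun w => Iff.rfl
    rw [key, hv]
    refine Finset.prod_induction _ (fun w => w ∈ {w : Fin k → Multiplicative ℤ | ∀ x : ℤ,
        Φ n (F w) ((A (2 * j + 1), B (2 * j + 1)), x)
        = ((A (2 * j + 1), B (2 * j + 1)), x + Multiplicative.toAdd (w j))}) ?_ ?_ ?_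
    · intro a b ha hb x
      rw [map_mul, map_mul, Equiv.Perm.mul_apply, hb x, ha]
      rw [Pi.mul_apply, toAdd_mul]
      congr 1
      ring
    · intro x
      simp
    · intro i _ x
      have hFi : F (Pi.mulSingle i (v i)) = t n (2 * i + 1) ^ (Multiplicative.toAdd (v i)) := by
        simp only [F]
        rw [MonoidHom.noncommPiCoprod_mulSingle]
        simp only [ϕ, zpowersHom_apply]
      rw [hFi]
      have hi := i.2
      have hj := j.2
      by_cases hij : i = j
      · subst hij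
        rw [Pi.mulSingle_eq_same]
        exact act_t_zpow_same n _ (by omega) (by omega) _ x
      · rw [Pi.mulSingle_eq_of_ne (Ne.symm hij)]
        have hne : (2 * (j : ℕ) + 1) ≠ 2 * (i : ℕ) + 1 := by
          intro hcon
          apply hij
          apply Fin.ext
          omega
        rw [act_t_zpow_ne n _ _ (by omega) ⟨i, rfl⟩ ⟨j, rfl⟩ hne]
        simp
  have hinj : Function.Injective F := by
    rw [injective_iff_map_eq_one]
    intro v hv
    funext j
    have h1 := hF v j 0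
    rw [hv, map_one, Equiv.Perm.one_apply] at h1
    have h2 := congrArg Prod.snd h1
    simp only [zero_add] at h2
    rw [Pi.one_apply, ← ofAdd_toAdd (v j), ← h2]
    rfl
  exact ⟨F.comp (MulEquiv.piMultiplicative (fun _ : Fin k => ℤ)).toMonoidHom,
    hinj.comp (MulEquiv.piMultiplicative (fun _ : Fin k => ℤ)).injective⟩

/-- For all `n` and `k` with `2 k + 1 ≤ n`, the cactus group `J_n` has a subgroup isomorphic
to `ℤ^k`. -/
theorem result : ∀ n k : ℕ, 2 * k + 1 ≤ n →
    ∃ H : Subgroup (Cactus n), Nonempty (H ≃* Multiplicative (Fin k → ℤ)) := by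
  intro n k h
  obtain ⟨f, hf⟩ := exists_injective_hom n k h
  exact ⟨f.range, ⟨(MonoidHom.ofInjective hf).symm⟩⟩

/-- Consequence: the statement of Q1 is false (take `n = 5`, `k = 2`). -/
theorem q1_false : ¬ ∀ n : ℕ, 2 ≤ n → ∀ k : ℕ,
    ((∃ H : Subgroup (Cactus n), Nonempty (H ≃* Multiplicative (Fin k → ℤ))) ↔ k ≤ n / 3) := by
  intro h
  have h1 := (h 5 (by norm_num) 2).1 (result 5 2 (by norm_num))
  norm_num at h1

end Pool.Agent.Results.MP_fc7805_al.CactusRank
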